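import Mathlib

set_option autoImplicit false
open Finset Filter

namespace Pool.Agent.H.MP_269329_co

theorem blk {δ : ℝ} (d0 : 0 < δ) (d1 : δ ≤ 1 / 400) {x y z c1 c2 c3 e1 e2 e3 x' y' z' : ℂ}
    (h1 : ‖c1 + δ‖ ≤ δ / 20) (h2 : ‖c2 + δ‖ ≤ δ / 20) (h3 : ‖c3 + δ‖ ≤ δ / 20)
    (g1 : ‖e1‖ ≤ 3 * δ ^ 2) (g2 : ‖e2‖ ≤ 3 * δ ^ 2) (g3 : ‖e3‖ ≤ 3 * δ ^ 2)
    (hx : x' = x + c1 * y + e1 * z) (hy : y' = y + c2 * z + e2 * x') (hz : z' = z + c3 * x' + e3 * y') :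
    ‖x'‖ ^ 2 + ‖y'‖ ^ 2 + ‖z'‖ ^ 2 ≤ (1 + 3 / 2 * δ) * (‖x‖ ^ 2 + ‖y‖ ^ 2 + ‖z‖ ^ 2) := by
  obtain ⟨N, N0, hN⟩ : ∃ N, 0 ≤ N ∧ N ^ 2 = ‖x‖ ^ 2 + ‖y‖ ^ 2 + ‖z‖ ^ 2 :=
    ⟨_, Real.sqrt_nonneg _, Real.sq_sqrt (by positivity)⟩
  have ax : ‖x‖ ≤ N := abs_le_of_sq_le_sq' (by nlinarith [sq_nonneg ‖y‖, sq_nonneg ‖z‖]) N0 |>.2
  have ay : ‖y‖ ≤ N := abs_le_of_sq_le_sq' (by nlinarith [sq_nonneg ‖x‖, sq_nonneg ‖z‖]) N0 |>.2
  have az : ‖z‖ ≤ N := abs_le_of_sq_le_sq' (by nlinarith [sq_nonneg ‖y‖, sq_nonneg ‖x‖]) N0 |>.2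
  have m : ∀ {a b : ℂ} {p q : ℝ}, ‖a‖ ≤ p → ‖b‖ ≤ q → ‖a * b‖ ≤ p * q := fun h g =>
    norm_mul_le_of_le h g
  have dd : ‖(δ : ℂ)‖ ≤ δ := by simp [abs_of_pos d0]
  have q : δ ^ 2 * N ≤ δ * N / 400 := by nlinarith [mul_nonneg d0.le N0]
  have q' : δ * N ≤ N / 400 := by nlinarith
  have p1 : ‖x' - (x - δ * y)‖ ≤ δ * N / 12 := by
    rw [show x' - (x - δ * y) = (c1 + δ) * y + e1 * z by rw [hx]; ring]
    linarith [norm_add_le_of_le (m h1 ay) (m g1 az), mul_nonneg d0.le N0]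
  have p0 : ‖x' - x‖ ≤ 2 * (δ * N) := by
    rw [show x' - x = x' - (x - δ * y) - δ * y by ring]
    linarith [norm_sub_le_of_le p1 (m dd ay), mul_nonneg d0.le N0]
  have bx : ‖x'‖ ≤ 2 * N := by linarith [norm_sub_norm_le x' x]
  have p2 : ‖y' - (y - δ * z)‖ ≤ δ * N / 12 := by
    rw [show y' - (y - δ * z) = (c2 + δ) * z + e2 * x' by rw [hy]; ring]
    linarith [norm_add_le_of_le (m h2 az) (m g2 bx), mul_nonneg d0.le N0]
  have by' : ‖y'‖ ≤ 2 * N := by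
    linarith [norm_sub_norm_le y' (y - δ * z), norm_sub_le_of_le ay (m dd az)]
  have p3 : ‖z' - (z - δ * x)‖ ≤ δ * N / 12 := by
    rw [show z' - (z - δ * x) = (c3 + δ) * x + ((c3 + δ) * (x' - x) - δ * (x' - x)) + e3 * y' by
      rw [hz]; ring]
    linarith [norm_add_le_of_le (norm_add_le_of_le (m h3 ax) (norm_sub_le_of_le (m h3 p0) (m dd p0)))
      (m g3 by'), mul_nonneg d0.le N0]
  have e : ‖x - δ * y‖ ^ 2 + ‖y - δ * z‖ ^ 2 + ‖z - δ * x‖ ^ 2 ≤ (1 + δ + δ ^ 2) * N ^ 2 := by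
    have := mul_nonneg d0.le (add_nonneg (sq_nonneg (x.re + y.re + z.re)) (sq_nonneg (x.im + y.im + z.im)))
    simp only [hN, Complex.sq_norm, Complex.normSq_apply, Complex.sub_re, Complex.sub_im,
      Complex.re_ofReal_mul, Complex.im_ofReal_mul]
    nlinarith
  have s : ∀ {a b : ℂ}, ‖a - b‖ ≤ δ * N / 12 → ‖a‖ ^ 2 ≤ (1 + δ / 7) * ‖b‖ ^ 2 + δ * N ^ 2 / 12 := by
    intro a b h
    have : ‖a‖ ≤ ‖b‖ + δ * N / 12 := by linarith [norm_sub_norm_le a b]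
    linarith [mul_nonneg d0.le (sq_nonneg (‖b‖ - 7 / 12 * N)),
      mul_nonneg (mul_nonneg d0.le N0) (sub_nonneg.2 q'), mul_nonneg d0.le (sq_nonneg N),
      pow_le_pow_left₀ (norm_nonneg a) this 2]
  have := mul_le_mul_of_nonneg_left e (show 0 ≤ 1 + δ / 7 by positivity)
  have t := mul_le_mul_of_nonneg_right d1 (mul_nonneg d0.le (sq_nonneg N))
  have t' := mul_le_mul_of_nonneg_right d1 (mul_nonneg d0.le (mul_nonneg d0.le (sq_nonneg N)))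
  rw [← hN]
  linarith [s p1, s p2, s p3, mul_nonneg d0.le (sq_nonneg N)]

theorem core {δ : ℝ} (d0 : 0 < δ) (d1 : δ ≤ 1 / 400) {G c e : ℕ → ℂ} {H : ℕ → ℝ} (T : ℕ)
    (hc : ∀ i < 3 * T + 3, ‖c i + δ‖ ≤ δ / 20) (he : ∀ i < 3 * T + 3, δ ^ 2 / 2 ≤ ‖e i‖ ∧ ‖e i‖ ≤ 3 * δ ^ 2)
    (hG : ∀ i < 3 * T + 3, G (i + 3) = G i + c i * G (i + 1) + e i * G (i + 2))
    (hH : ∀ i < 3 * T + 3, H (i + 3) = H i + ‖c i‖ * H (i + 1) + ‖e i‖ * H (i + 2))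
    (h0 : ∀ i, ‖G i‖ ≤ H i) {κ : ℝ} (k0 : 0 ≤ κ) (hk : 2 ≤ κ ^ 2 * (1 + δ / 4) ^ T * (δ ^ 2 / 2) ^ 6) :
    ∀ i < 3, ‖G (3 * T + 3 + i)‖ ≤ κ * H (3 * T + 3 + i) := by
  have H0 := fun i => (norm_nonneg _).trans (h0 i)
  have c0 : ∀ i < 3 * T + 3, 9 / 10 * δ ≤ ‖c i‖ := fun i h => by
    have := norm_sub_norm_le (δ : ℂ) (c i + δ)
    simp [abs_of_pos d0] at this; linarith [hc i h]
  have a : ∀ t ≤ T + 1, ‖G (3 * t)‖ ^ 2 + ‖G (3 * t + 1)‖ ^ 2 + ‖G (3 * t + 2)‖ ^ 2 ≤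
      (1 + 3 / 2 * δ) ^ t * (H 0 + H 1 + H 2) ^ 2 := fun t => by
    induction t with
    | zero =>
      have := fun i => pow_le_pow_left₀ (norm_nonneg _) (h0 i) 2
      simp; nlinarith [this 0, this 1, this 2, mul_nonneg (H0 0) (H0 1), mul_nonneg (H0 0) (H0 2),
        mul_nonneg (H0 1) (H0 2)]
    | succ t ih =>
      intro h
      refine (blk d0 d1 (hc _ (by omega)) (hc _ (by omega)) (hc _ (by omega)) (he _ (by omega)).2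
        (he _ (by omega)).2 (he _ (by omega)).2 (hG (3 * t) (by omega)) (hG (3 * t + 1) (by omega))
        (hG (3 * t + 2) (by omega))).trans ?_
      rw [pow_succ' _ t, mul_assoc (1 + _)]; gcongr; exact ih (by omega)
  have η : 0 ≤ δ ^ 2 / 2 ∧ δ ^ 2 / 2 ≤ 9 / 10 * δ ∧ δ ^ 2 / 2 ≤ 1 := ⟨by positivity, by nlinarith, by nlinarith⟩
  have l : ∀ i < 3, δ ^ 2 / 2 * (H i + H (i + 1) + H (i + 2)) ≤ H (i + 3) := fun i h => by
    rw [hH i (by omega)]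
    nlinarith [mul_le_mul_of_nonneg_right η.2.2 (H0 i), mul_le_mul_of_nonneg_right (he i (by omega)).1
      (H0 (i + 2)), mul_le_mul_of_nonneg_right (η.2.1.trans (c0 i (by omega))) (H0 (i + 1))]
  obtain ⟨m, hm⟩ : ∃ m, m = (δ ^ 2 / 2) ^ 3 * (H 0 + H 1 + H 2) := ⟨_, rfl⟩
  have m0 : 0 ≤ m := by have := H0 0; have := H0 1; have := H0 2; rw [hm]; positivity
  have b : ∀ t ≤ T, ∀ i < 3, (1 + 9 / 10 * δ) ^ t * m ≤ H (3 * t + 3 + i) := fun t => by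
    induction t with
    | zero =>
      generalize δ ^ 2 / 2 = η' at *
      have l0 := l 0 (by omega); have l1 := l 1 (by omega); have l2 := l 2 (by omega)
      have s := add_nonneg (add_nonneg (H0 0) (H0 1)) (H0 2)
      simp only [zero_add, Nat.reduceAdd] at l0 l1 l2
      have u1 : η' * (η' * (H 0 + H 1 + H 2)) ≤ H 4 := by
        nlinarith [mul_le_mul_of_nonneg_left l0 η.1, mul_nonneg η.1 (add_nonneg (H0 1) (H0 2))]
      have u2 : m ≤ H 5 := by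
        nlinarith [mul_le_mul_of_nonneg_left u1 η.1, mul_nonneg η.1 (add_nonneg (H0 3) (H0 2))]
      have v1 : m ≤ η' * (η' * (H 0 + H 1 + H 2)) := by
        nlinarith [mul_nonneg η.1 (mul_nonneg η.1 s)]
      intro _ i h
      interval_cases i <;> simp <;> nlinarith [mul_nonneg η.1 s]
    | succ t ih =>
      intro h
      have ih := ih (by omega)
      have p : 0 ≤ (1 + 9 / 10 * δ) ^ t * m := by positivity
      have : ∀ i < 3 * T + 3, (1 + 9 / 10 * δ) ^ t * m ≤ H i → (1 + 9 / 10 * δ) ^ t * m ≤ H (i + 1) →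
          (1 + 9 / 10 * δ) ^ (t + 1) * m ≤ H (i + 3) := fun i h a b => by
        rw [hH i h, pow_succ]
        nlinarith [mul_le_mul (c0 i h) b p (norm_nonneg _), mul_nonneg (norm_nonneg (e i)) (H0 (i + 2))]
      have u := this (3 * t + 3) (by omega) (ih 0 (by omega)) (ih 1 (by omega))
      intro i hi
      interval_cases i
      exacts [u, this (3 * t + 4) (by omega) (ih 1 (by omega)) (ih 2 (by omega)),
        this (3 * t + 5) (by omega) (ih 2 (by omega)) (le_trans (by rw [pow_succ]; nlinarith) u)]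
  intro i hi
  refine (abs_le_of_sq_le_sq' ?_ (mul_nonneg k0 (H0 _))).2
  have a := a (T + 1) le_rfl
  have f : (1 + 3 / 2 * δ) ^ T * (1 + δ / 4) ^ T ≤ ((1 + 9 / 10 * δ) ^ T) ^ 2 := by
    rw [← mul_pow, ← pow_mul, mul_comm T, pow_mul]; gcongr; nlinarith
  calc _ ≤ (1 + 3 / 2 * δ) ^ (T + 1) * (H 0 + H 1 + H 2) ^ 2 := le_trans (by
        rw [show 3 * T + 3 = 3 * (T + 1) by ring]
        have := fun j => sq_nonneg ‖G j‖
        interval_cases i <;> (try simp only [add_zero]) <;> linarith [this (3 * (T + 1)),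
          this (3 * (T + 1) + 1), this (3 * (T + 1) + 2)]) a
    _ ≤ (1 + 3 / 2 * δ) ^ T * (κ ^ 2 * (1 + δ / 4) ^ T * (δ ^ 2 / 2) ^ 6) * (H 0 + H 1 + H 2) ^ 2 := by
        rw [pow_succ]; gcongr; linarith
    _ = κ ^ 2 * ((1 + 3 / 2 * δ) ^ T * (1 + δ / 4) ^ T * m ^ 2) := by rw [hm]; ring
    _ ≤ κ ^ 2 * ((1 + 9 / 10 * δ) ^ T * m) ^ 2 := by rw [mul_pow]; gcongr
    _ ≤ _ := by rw [mul_pow κ]; gcongr; exact b T le_rfl i hi

end Pool.Agent.H.MP_269329_co
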