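import Pool.Agent.H.MP_269329_co.A

set_option autoImplicit false
open Finset Filter

namespace Pool.Agent.H.MP_269329_co

/-- Weight of the walk with step list `x` (letter `k` = step `2(k+1)`) started at vertex `j`. -/
noncomputable def h {m : ℕ} (z : Fin m → ℂ) (n : ℕ) : ℤ → List (Fin m) → ℂ
  | _, [] => 1
  | j, k :: y => z k * (if y = [] then 1 else (((n : ℤ) ^ 2 - (j + 2 * (k + 1)) ^ 2 : ℤ) : ℂ)⁻¹) *
      h z n (j + 2 * (k + 1)) y

/-- Positive walks from `-n` to `n`. -/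
def X (m n : ℕ) : Set (List (Fin m)) := {x | x ≠ [] ∧ (x.map fun k => 2 * (k.1 + 1)).sum = 2 * n}

def Y (u : ℕ) : Set (List (Fin 3)) := {x | (x.map fun k => 2 * (k.1 + 1)).sum = 2 * u}

theorem Y_fin (u : ℕ) : (Y u).Finite := (List.finite_length_le (Fin 3) (2 * u)).subset fun x (hx : _ = _) => by
  show x.length ≤ _
  rw [← hx]; clear hx
  induction x <;> simp; omega

theorem Y_nil {u : ℕ} {x : List (Fin 3)} (hx : x ∈ Y u) : x = [] ↔ u = 0 := by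
  cases x <;> simp [Y] at hx ⊢ <;> omega

theorem dec {M : Type} [AddCommMonoid M] (φ : List (Fin 3) → M) (v : ℕ) : ∑ᶠ x ∈ Y (v + 3), φ x =
    ∑ᶠ y ∈ Y (v + 2), φ (0 :: y) + ∑ᶠ y ∈ Y (v + 1), φ (1 :: y) + ∑ᶠ y ∈ Y v, φ (2 :: y) := by
  have : Y (v + 3) = ⋃ k : Fin 3, (k :: ·) '' Y (v + 2 - k) := by
    ext x
    rcases x with _ | ⟨k, y⟩ <;> simp [Y]
    omega
  rw [this, finsum_mem_iUnion (fun a b e => Set.disjoint_left.2 (by
    rintro _ ⟨_, _, rfl⟩ ⟨_, _, h⟩; exact e (List.cons.inj h).1.symm)) fun k => (Y_fin _).image _,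
    finsum_eq_sum_of_fintype, Fin.sum_univ_three]
  simp only [finsum_mem_image List.cons_injective.injOn]; rfl

noncomputable def w (n v : ℕ) : ℝ := if v = 0 then 1 else (4 * v * (n - v) : ℝ)⁻¹

variable (z : Fin 3 → ℂ) (n : ℕ)
noncomputable def S (u : ℕ) : ℂ := ∑ᶠ x ∈ Y u, h z n (n - 2 * u) x
noncomputable def A (u : ℕ) : ℝ := ∑ᶠ x ∈ Y u, ‖h z n (n - 2 * u) x‖

theorem hc {u v : ℕ} {k : Fin 3} (e : u = v + k + 1) {y : List (Fin 3)} (hy : y ∈ Y v) :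
    h z n (n - 2 * u) (k :: y) = z k * w n v * h z n (n - 2 * v) y := by
  rw [h, show (n - 2 * u + 2 * (k + 1) : ℤ) = n - 2 * v by omega, w]
  simp only [Y_nil hy]
  split_ifs <;> push_cast <;> ring

theorem S_rec (v : ℕ) : S z n (v + 3) = z 0 * w n (v + 2) * S z n (v + 2) +
    z 1 * w n (v + 1) * S z n (v + 1) + z 2 * w n v * S z n v := by
  simp only [S, dec, mul_finsum_mem]
  congr 1; congr 1
  all_goals exact finsum_mem_congr rfl fun y hy => hc z n (by simp) hy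

theorem A_rec (v : ℕ) : A z n (v + 3) = ‖z 0‖ * |w n (v + 2)| * A z n (v + 2) +
    ‖z 1‖ * |w n (v + 1)| * A z n (v + 1) + ‖z 2‖ * |w n v| * A z n v := by
  simp only [A, dec, mul_finsum_mem]
  congr 1; congr 1
  all_goals refine finsum_mem_congr rfl fun y hy => ?_; rw [hc z n (by simp) hy]; simp

theorem S_le (u : ℕ) : ‖S z n u‖ ≤ A z n u := by
  simp only [S, A, finsum_mem_eq_finite_toFinset_sum _ (Y_fin u)]; exact norm_sum_le _ _

theorem A_pos (hz : z 2 ≠ 0) (t : ℕ) (ht : 3 * t ≤ n) : 0 < A z n (3 * t) := by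
  induction t with
  | zero => simp [A, show Y 0 = {[]} from Set.ext fun x => ⟨fun a => (Y_nil a).2 rfl, fun a => a ▸ rfl⟩, h]
  | succ t ih =>
    have b := fun u => (norm_nonneg _).trans (S_le z n u)
    have a : w n (3 * t) ≠ 0 := by
      have : (n : ℝ) - (3 * t : ℕ) ≠ 0 := sub_ne_zero.2 (Nat.cast_injective.ne (by omega))
      rw [w]; split_ifs with e
      exacts [one_ne_zero, by positivity]
    have := ih (by omega)
    rw [mul_add_one, A_rec]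
    have := b (3 * t + 1); have := b (3 * t + 2)
    positivity

theorem prop {κ : ℝ} {b : ℕ} (hb : ∀ i < 3, ‖S z n (b + i)‖ ≤ κ * A z n (b + i)) (i : ℕ) :
    ‖S z n (b + i)‖ ≤ κ * A z n (b + i) := by
  induction i using Nat.strong_induction_on with
  | _ i ih =>
    by_cases e : i < 3
    · exact hb i e
    obtain ⟨i, rfl⟩ : ∃ j, i = j + 3 := ⟨i - 3, by omega⟩
    rw [← add_assoc, S_rec, A_rec]
    have : ∀ (k : Fin 3) j, j < i + 3 → ‖z k * w n (b + j) * S z n (b + j)‖ ≤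
      κ * (‖z k‖ * |w n (b + j)| * A z n (b + j)) := fun k j e => by
        rw [norm_mul, norm_mul, Complex.norm_real, Real.norm_eq_abs, mul_left_comm]; gcongr; exact ih j e
    refine (norm_add_le_of_le (norm_add_le_of_le (this 0 (i + 2) (by omega)) (this 1 (i + 1) (by omega)))
      (this 2 i (by omega))).trans_eq (by simp only [add_assoc]; ring)

theorem bulk {ζ : ℂ} (h0 : ζ ≠ 0) (h3 : z 2 = ζ ^ 3) (h2 : ‖z 1 / ζ ^ 2 + 1‖ ≤ 1 / 50)
    (h1 : 1 / 2 ≤ ‖z 0 / ζ‖ ∧ ‖z 0 / ζ‖ ≤ 2) {δ κ : ℝ} (d0 : 0 < δ) (d1 : δ ≤ 1 / 400) {a T : ℕ}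
    (hw : ∀ i ≤ 3 * T + 8, δ ^ 3 ≤ w n (a + i) ∧ w n (a + i) ≤ w n (a + i + 1) ∧
      w n (a + i) ≤ 51 / 50 * δ ^ 3) (k0 : 0 ≤ κ) (hk : 2 ≤ κ ^ 2 * (1 + δ / 4) ^ T * (δ ^ 2 / 2) ^ 6)
    (i : ℕ) : ‖S z n (a + (3 * T + 3) + i)‖ ≤ κ * A z n (a + (3 * T + 3) + i) := by
  let r : ℕ → ℝ := fun i => Nat.rec (motive := fun _ => ℝ × ℝ × ℝ) (1, δ, δ ^ 2)
    (fun i p => (p.2.1, p.2.2, w n (a + (i + 3)) * p.1)) i |>.1
  have r3 : ∀ i, r (i + 3) = w n (a + (i + 3)) * r i := fun _ => rfl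
  have w0 : ∀ i ≤ 3 * T + 8, 0 < w n (a + i) := fun i e => lt_of_lt_of_le (by positivity) (hw i e).1
  have hr : ∀ i ≤ 3 * T + 7, 0 < r i ∧ δ * r i ≤ r (i + 1) ∧ δ ^ 2 * r (i + 1) ≤ w n (a + (i + 1)) * r i := by
    intro i
    induction i using Nat.strong_induction_on with
    | _ i ih =>
      intro hi
      rcases i with _ | _ | _ | i
      · show 0 < (1 : ℝ) ∧ δ * 1 ≤ δ ∧ δ ^ 2 * δ ≤ w n (a + 1) * 1
        exact ⟨one_pos, by simp, by linarith [(hw 1 (by omega)).1]⟩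
      · show 0 < δ ∧ δ * δ ≤ δ ^ 2 ∧ δ ^ 2 * δ ^ 2 ≤ w n (a + 2) * δ
        exact ⟨d0, (sq δ).ge, by nlinarith [(hw 2 (by omega)).1]⟩
      · show 0 < δ ^ 2 ∧ δ * δ ^ 2 ≤ w n (a + 3) * 1 ∧ δ ^ 2 * (w n (a + 3) * 1) ≤ w n (a + 3) * δ ^ 2
        exact ⟨by positivity, by linarith [(hw 3 (by omega)).1], by linarith⟩
      obtain ⟨p, q, s⟩ := ih i (by omega) (by omega)
      have b := w0 (i + 3) (by omega); have b' := w0 (i + 4) (by omega)
      have c : w n (a + (i + 3)) ≤ w n (a + (i + 4)) := (hw (i + 3) (by omega)).2.1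
      have c' : w n (a + (i + 1)) ≤ w n (a + (i + 3)) :=
        (hw (i + 1) (by omega)).2.1.trans (hw (i + 2) (by omega)).2.1
      show 0 < r (i + 3) ∧ δ * r (i + 3) ≤ r (i + 1 + 3) ∧ δ ^ 2 * r (i + 1 + 3) ≤ w n (a + (i + 4)) * r (i + 3)
      rw [r3, r3]
      exact ⟨by positivity, by nlinarith [mul_le_mul c q (by positivity) b'.le],
        by nlinarith [mul_le_mul_of_nonneg_left (s.trans (mul_le_mul_of_nonneg_right c' p.le)) b'.le]⟩
  have R : ∀ i ≤ 3 * T + 7, δ ≤ r (i + 1) / r i ∧ r (i + 1) / r i ≤ 51 / 50 * δ := fun i e => by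
    obtain ⟨p, q, s⟩ := hr i e
    rw [le_div_iff₀ p, div_le_iff₀ p]
    exact ⟨q, le_of_mul_le_mul_left (s.trans (by
      nlinarith [mul_le_mul_of_nonneg_right (hw (i + 1) (by omega)).2.2 p.le])) (by positivity)⟩
  refine prop z n (fun i hi => ?_) i
  have := core d0 d1 (G := fun i => (|w n (a + i)| / |r i| : ℝ) / ζ ^ i * S z n (a + i))
    (H := fun i => |w n (a + i)| / |r i| / ‖ζ‖ ^ i * A z n (a + i))
    (c := fun i => z 1 / ζ ^ 2 * (r (i + 1) / r i : ℝ))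
    (e := fun i => z 0 / ζ * (r (i + 1) / r i * (r (i + 2) / r (i + 1)) : ℝ)) T (fun i e => ?_)
    (fun i e => ?_) (fun i e => ?_) (fun i e => ?_) (fun i => ?_) k0 hk i hi
  · have p := (hr (3 * T + 3 + i) (by omega)).1
    have q := w0 (3 * T + 3 + i) (by omega)
    simp only [norm_mul, norm_div, norm_pow, Complex.norm_real, Real.norm_eq_abs, abs_abs] at this
    rw [mul_left_comm] at this
    rw [add_assoc]
    exact le_of_mul_le_mul_left this (by positivity)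
  · obtain ⟨p, q⟩ := R i (by omega)
    generalize r (i + 1) / r i = ρ at *
    rw [show z 1 / ζ ^ 2 * ρ + δ = (z 1 / ζ ^ 2 + 1) * ρ - (ρ - δ : ℝ) by push_cast; ring]
    refine (norm_sub_le_of_le (norm_mul_le_of_le h2 le_rfl) le_rfl).trans ?_
    rw [Complex.norm_real, Complex.norm_real, Real.norm_of_nonneg (by linarith),
      Real.norm_of_nonneg (by linarith)]
    linarith
  · obtain ⟨p, q⟩ := R i (by omega)
    obtain ⟨p', q'⟩ := R (i + 1) (by omega)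
    have a1 := mul_le_mul p p' d0.le (by linarith)
    have a2 := mul_le_mul q q' (by linarith) (by positivity)
    rw [norm_mul, Complex.norm_real, Real.norm_of_nonneg (by nlinarith)]
    constructor <;> nlinarith [mul_le_mul h1.1 a1 (by positivity) (norm_nonneg _),
      mul_le_mul h1.2 a2 (by nlinarith) zero_le_two]
  · have p := (hr i (by omega)).1; have p1 := (hr (i + 1) (by omega)).1; have p2 := (hr (i + 2) (by omega)).1
    have q := w0 i (by omega); have q1 := w0 (i + 1) (by omega); have q2 := w0 (i + 2) (by omega)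
    have q3 := w0 (i + 3) (by omega)
    have := S_rec z n (a + i)
    simp only [add_assoc] at this
    simp only [this, r3, h3, abs_mul, abs_of_pos, p, p1, p2, q, q1, q2, q3]
    have : (w n (a + (i + 3)) : ℂ) ≠ 0 ∧ (r i : ℂ) ≠ 0 ∧ (r (i + 1) : ℂ) ≠ 0 ∧ (r (i + 2) : ℂ) ≠ 0 := by
      simp [p.ne', p1.ne', p2.ne', q3.ne']
    obtain ⟨_, _, _, _⟩ := this
    push_cast; field_simp; ring
  · have p := (hr i (by omega)).1; have p1 := (hr (i + 1) (by omega)).1; have p2 := (hr (i + 2) (by omega)).1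
    have q3 := w0 (i + 3) (by omega)
    have := A_rec z n (a + i)
    simp only [add_assoc] at this
    simp only [this, r3, h3, abs_mul, norm_mul, norm_div, norm_pow, Complex.norm_real, Real.norm_eq_abs]
    field_simp; ring
  · simp only [norm_mul, norm_div, norm_pow, Complex.norm_real, Real.norm_eq_abs, abs_abs]
    gcongr; exact S_le z n _

theorem main {ζ : ℂ} (h0 : ζ ≠ 0) (h3 : z 2 = ζ ^ 3) (h2 : ‖z 1 / ζ ^ 2 + 1‖ ≤ 1 / 50)
    (h1 : 1 / 2 ≤ ‖z 0 / ζ‖ ∧ ‖z 0 / ζ‖ ≤ 2) {κ : ℝ} (k0 : 0 < κ) :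
    ∃ n, 0 < n ∧ 0 < A z n n ∧ ‖S z n n‖ ≤ κ * A z n n := by
  obtain ⟨q, q1, hq⟩ := ((eventually_ge_atTop 1).and ((tendsto_pow_const_div_const_pow_of_one_lt 24
    one_lt_two).eventually_le_const (show (0 : ℝ) < κ ^ 2 / (2 * (32 * 300 ^ 4) ^ 6) by positivity))).exists
  have q1' : (1 : ℝ) ≤ q := by exact_mod_cast q1
  obtain ⟨s, hs⟩ : ∃ s, s = 300 * q := ⟨_, rfl⟩
  have s1 : (s : ℝ) = 300 * q := by exact_mod_cast hs
  have s0 : (0 : ℝ) < s := by linarith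
  have le : 3 * (16 * s ^ 2 * q) + 9 ≤ s ^ 3 / 4 := by
    have : 300 ≤ s ^ 2 * q := by nlinarith
    rw [pow_succ s 2]; nth_rw 3 [hs]; rw [mul_left_comm (s ^ 2), mul_assoc 16]; omega
  refine ⟨8 * s ^ 3, by omega, ?_, ?_⟩
  · have := A_pos z (8 * s ^ 3) (h3 ▸ pow_ne_zero _ h0) (8 * 300 ^ 3 / 3 * q ^ 3) (by rw [hs]; ring_nf; rfl)
    rwa [show 3 * (8 * 300 ^ 3 / 3 * q ^ 3) = 8 * s ^ 3 by rw [hs]; ring] at this
  have W : ∀ i ≤ s ^ 3 / 4, w (8 * s ^ 3) (4 * s ^ 3 + i) = (64 * (s ^ 3) ^ 2 - 4 * i ^ 2 : ℝ)⁻¹ ∧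
      (0 : ℝ) ≤ i ∧ 4 * (i : ℝ) ≤ s ^ 3 := fun i e =>
    ⟨by rw [w, if_neg (by omega)]; push_cast; ring, i.cast_nonneg, by exact_mod_cast (by omega)⟩
  have := bulk z (8 * s ^ 3) h0 h3 h2 h1 (δ := (4 * s ^ 2)⁻¹) (by positivity)
    (by rw [one_div]; gcongr; nlinarith) (a := 4 * s ^ 3) (T := 16 * s ^ 2 * q) (fun i e => ?_) k0.le ?_
    (4 * s ^ 3 - (3 * (16 * s ^ 2 * q) + 3))
  · rwa [show 4 * s ^ 3 + (3 * (16 * s ^ 2 * q) + 3) + (4 * s ^ 3 - (3 * (16 * s ^ 2 * q) + 3)) =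
      8 * s ^ 3 by omega] at this
  · obtain ⟨a, b, c⟩ := W i (by omega)
    obtain ⟨a', -, c'⟩ := W (i + 1) (by omega)
    rw [add_assoc, a, a', show ((4 * s ^ 2 : ℝ)⁻¹) ^ 3 = (64 * (s ^ 3) ^ 2 : ℝ)⁻¹ by field_simp; norm_num]
    have : (0 : ℝ) < s ^ 3 := by positivity
    generalize (s : ℝ) ^ 3 = t at *
    push_cast at c' ⊢
    refine ⟨inv_anti₀ (by nlinarith) (by nlinarith), inv_anti₀ (by nlinarith) (by nlinarith), ?_⟩
    rw [← div_eq_mul_inv, inv_eq_one_div, div_le_div_iff₀ (by nlinarith) (by positivity)]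
    nlinarith
  · have : (2 : ℝ) ^ q ≤ (1 + (4 * s ^ 2 : ℝ)⁻¹ / 4) ^ (16 * s ^ 2 * q) := by
      rw [pow_mul]; gcongr
      refine le_trans (le_of_eq ?_) (one_add_mul_le_pow (le_trans (b := 0) (by norm_num) (by positivity)) _)
      push_cast; field_simp; norm_num
    rw [div_le_div_iff₀ (by positivity) (by positivity)] at hq
    calc (2 : ℝ) = q ^ 24 * (2 * (32 * 300 ^ 4) ^ 6) * (((4 * s ^ 2 : ℝ)⁻¹) ^ 2 / 2) ^ 6 := by
          rw [s1]; field_simp; norm_num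
      _ ≤ _ := mul_le_mul_of_nonneg_right (hq.trans (by gcongr)) (by positivity)

end Pool.Agent.H.MP_269329_co
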